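import Mathlib
import Pool.Agent.Helper38.TW.GDefs

/-!
# TM: definitions for the first moment over the twists
-/

set_option autoImplicit false

namespace Pool.Agent.Helper38.TM

open Finset Polynomial Pool.Agent.Helper38.TW

/-- the integers `x` for which `y² = D f(x)` has a solution with `y ≠ 0` and a squarefree `D`,
`|D| ≤ X` -/
def XSet (f : ℤ[X]) (X : ℕ) : Set ℤ :=
  {x | ∃ D y : ℤ, Squarefree D ∧ |D| ≤ (X : ℤ) ∧ y ≠ 0 ∧ y ^ 2 = D * f.eval x}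

variable {f : ℤ[X]} {ι : Type} [Fintype ι] [DecidableEq ι]

/-- the degenerate ones -/
def DegX (dt : FData f ι) (X : ℕ) : Set ℤ :=
  {x | ∃ (D y t : ℤ) (E : ι → ℕ) (τ : ι → ℤ) (I : Finset ι), Squarefree D ∧ |D| ≤ (X : ℤ) ∧
    y ≠ 0 ∧ y ^ 2 = D * f.eval x ∧ IsDesc dt D x t E τ ∧ I.Nonempty ∧ ¬ NonDeg dt I E}

/-- the `x` with given descent data number at most `N` -/
def TupleBound (dt : FData f ι) (N : ℕ) : Prop :=
  ∀ (τ : ι → ℤ) (E : ι → ℕ) (S : Finset ℤ),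
    (∀ x ∈ S, ∀ k, ∃ u : ℤ, u ≠ 0 ∧ (dt.g k).eval x = τ k * E k * u ^ 2) → S.card ≤ N

end Pool.Agent.Helper38.TM
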