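import Mathlib
import Pool.Agent.Helper38.TM.Defs

/-!
# TM-A6: rational roots and linear factors
-/

set_option autoImplicit false

namespace Pool.Agent.Helper38.TM

open Finset Polynomial Pool.Agent.Helper38.TW

variable {f : ℤ[X]} {ι : Type} [Fintype ι] [DecidableEq ι]

theorem roots_le_lin (dt : FData f ι) :
    (f.map (Int.castRingHom ℚ)).roots.toFinset.card ≤
      (univ.filter (fun k => (dt.g k).natDegree = 1)).card := by
  classical
  have hfac : C (dt.b : ℚ) * f.map (Int.castRingHom ℚ) =
      C (dt.c : ℚ) * ∏ k, (dt.g k).map (Int.castRingHom ℚ) := by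
    have h := congrArg (Polynomial.map (Int.castRingHom ℚ)) dt.fac
    simp only [Polynomial.map_mul, Polynomial.map_C, Polynomial.map_prod] at h
    exact h
  have hc : (dt.c : ℚ) ≠ 0 := by exact_mod_cast dt.c_ne
  have hex : ∀ r ∈ (f.map (Int.castRingHom ℚ)).roots.toFinset, ∃ k,
      ((dt.g k).map (Int.castRingHom ℚ)).eval r = 0 := by
    intro r hr
    have h1 : (f.map (Int.castRingHom ℚ)).eval r = 0 :=
      (mem_roots'.1 (Multiset.mem_toFinset.1 hr)).2
    have h2 := congrArg (Polynomial.eval r) hfac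
    rw [eval_mul, eval_mul, h1, mul_zero, eval_C, eval_prod] at h2
    have h3 := (mul_eq_zero.1 h2.symm).resolve_left hc
    obtain ⟨k, -, hk⟩ := Finset.prod_eq_zero_iff.1 h3
    exact ⟨k, hk⟩
  rcases (f.map (Int.castRingHom ℚ)).roots.toFinset.eq_empty_or_nonempty with h0 | ⟨r0, hr0⟩
  · rw [h0, Finset.card_empty]
    exact Nat.zero_le _
  have hne : Nonempty ι := ⟨(hex r0 hr0).choose⟩
  choose! k hk using hex
  have hdeg : ∀ r ∈ (f.map (Int.castRingHom ℚ)).roots.toFinset, (dt.g (k r)).natDegree = 1 := by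
    intro r hr
    have h1 := degree_eq_one_of_irreducible_of_root (dt.irr (k r)) (hk r hr)
    have h2 := natDegree_eq_of_degree_eq_some h1
    rwa [natDegree_map_eq_of_injective (Int.castRingHom ℚ).injective_int] at h2
  refine Finset.card_le_card_of_injOn k ?_ ?_
  · intro r hr
    exact Finset.mem_coe.2 (Finset.mem_filter.2 ⟨Finset.mem_univ _, hdeg r (Finset.mem_coe.1 hr)⟩)
  · intro r hr r' hr' h
    have h1 := hk r (Finset.mem_coe.1 hr)
    have h2 := hk r' (Finset.mem_coe.1 hr')
    rw [← h] at h2
    by_contra hne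
    have h3 : ((dt.g (k r)).map (Int.castRingHom ℚ)).natDegree = 1 := by
      rw [natDegree_map_eq_of_injective (Int.castRingHom ℚ).injective_int]
      exact hdeg r (Finset.mem_coe.1 hr)
    have h4 : ((dt.g (k r)).map (Int.castRingHom ℚ)) ≠ 0 := (dt.irr (k r)).ne_zero
    have h5 : ({r, r'} : Finset ℚ) ⊆ ((dt.g (k r)).map (Int.castRingHom ℚ)).roots.toFinset := by
      intro s hs
      rw [Multiset.mem_toFinset, mem_roots h4]
      rcases Finset.mem_insert.1 hs with rfl | hs
      · exact h1
      · rw [Finset.mem_singleton.1 hs]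
        exact h2
    have h6 := Finset.card_le_card h5
    rw [Finset.card_pair hne] at h6
    have h7 := (Multiset.toFinset_card_le _).trans
      (card_roots' ((dt.g (k r)).map (Int.castRingHom ℚ)))
    omega

end Pool.Agent.Helper38.TM
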