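import Mathlib
import Pool.Agent.Helper38.TM.Defs
import Pool.Agent.Helper38.TW.SqCard

/-!
# TM-A2: few `x` with given descent data, if three of the `g_k` are linear
-/

set_option autoImplicit false

namespace Pool.Agent.Helper38.TM

open Finset Polynomial Pool.Agent.Helper38.TW

variable {f : ℤ[X]} {ι : Type} [Fintype ι] [DecidableEq ι]

private theorem g_ne (dt : FData f ι) (i : ι) : dt.g i ≠ 0 := by
  intro h
  have := (dt.irr i).ne_zero
  rw [h] at this
  simp at this

private theorem g_coprime (dt : FData f ι) {i k : ι} (hik : i ≠ k) :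
    IsCoprime ((dt.g i).map (Int.castRingHom ℚ)) ((dt.g k).map (Int.castRingHom ℚ)) := by
  obtain ⟨u, v, huv⟩ := dt.bez i k hik
  have hB : (dt.B : ℚ) ≠ 0 := by exact_mod_cast dt.B_ne
  have h := congrArg (Polynomial.map (Int.castRingHom ℚ)) huv
  simp only [Polynomial.map_add, Polynomial.map_mul, Polynomial.map_C] at h
  refine ⟨C ((dt.B : ℚ)⁻¹) * u.map (Int.castRingHom ℚ), C ((dt.B : ℚ)⁻¹) * v.map (Int.castRingHom ℚ), ?_⟩
  rw [mul_assoc, mul_assoc, ← mul_add, h, ← C_mul]
  simp [hB]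

private theorem prod_sqf (dt : FData f ι) (s : Finset ι) :
    Squarefree (∏ k ∈ s, (dt.g k).map (Int.castRingHom ℚ)) := by
  apply Finset.squarefree_prod_of_pairwise_isCoprime
  · intro i _ k _ hik
    exact (g_coprime dt hik).isRelPrime
  · intro i _
    exact (dt.irr i).squarefree

theorem tuple_card (dt : FData f ι)
    (h3 : 3 ≤ (univ.filter (fun k => (dt.g k).natDegree = 1)).card) :
    ∃ N : ℕ, TupleBound dt N := by
  obtain ⟨W, hWs, hWc⟩ := Finset.exists_subset_card_eq h3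
  have hlin : ∀ k ∈ W, (dt.g k).natDegree = 1 := fun k hk => (Finset.mem_filter.1 (hWs hk)).2
  obtain ⟨h, hh⟩ : ∃ h : ℤ[X], h = ∏ k ∈ W, dt.g k := ⟨_, rfl⟩
  have hmap : h.map (Int.castRingHom ℚ) = ∏ k ∈ W, (dt.g k).map (Int.castRingHom ℚ) := by
    rw [hh, Polynomial.map_prod]
  have hdeg : h.natDegree = 3 := by
    rw [hh, natDegree_prod _ _ (fun k _ => g_ne dt k), Finset.sum_congr rfl hlin]
    simp [hWc]
  have hsep : (h.map (Int.castRingHom ℚ)).Separable := by
    rw [PerfectField.separable_iff_squarefree, hmap]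
    exact prod_sqf dt _
  obtain ⟨N, hN⟩ := sqmod_card h hdeg hsep
  refine ⟨N, fun τ E S hS => hN S fun x hx x' hx' => ?_⟩
  rw [hmap]
  refine sqmod_prod _ _ (fun i _ k _ hik => g_coprime dt hik) fun k hk => ?_
  obtain ⟨u, -, hu⟩ := hS x hx k
  obtain ⟨u', -, hu'⟩ := hS x' hx' k
  exact sqmod_lin (hlin k hk) hu hu'

end Pool.Agent.Helper38.TM
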