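import Mathlib
import Pool.Agent.Helper38.TM.Defs
import Pool.Agent.Helper38.TW.SumAdm

set_option autoImplicit false

namespace Pool.Agent.Helper38.TM

open Finset Polynomial Pool.Agent.Helper38.TW

variable {f : ℤ[X]} {ι : Type} [Fintype ι] [DecidableEq ι]

/- A1, helper38, Helper38/TM/DegX.lean -/
def StA1 : Prop := ∀ (f : ℤ[X]) (n : ℕ) (dt : FData f (Fin n)) (_hd : 4 ≤ f.natDegree),
    ∃ C : ℕ, ∀ X : ℕ, (DegX dt X).Finite ∧ (DegX dt X).ncard ≤ C * (Nat.sqrt X + 1)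

/- A2, helper38, Helper38/TM/Tuple.lean -/
def StA2 : Prop := ∀ (f : ℤ[X]) (n : ℕ) (dt : FData f (Fin n))
    (_h3 : 3 ≤ (univ.filter (fun k => (dt.g k).natDegree = 1)).card), ∃ N : ℕ, TupleBound dt N

/- A3, helper38, Helper38/TM/SplitX.lean: count_split_x -/
def StA3 : Prop := ∀ (f : ℤ[X]) (n : ℕ) (dt : FData f (Fin n)) (N : ℕ) (_hN : TupleBound dt N)
    (X z : ℕ), (XSet f X \ DegX dt X).Finite ∧
    ((XSet f X \ DegX dt X).ncard : ℝ) ≤ N *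
      ∑ _t ∈ divB dt, ∑ τ ∈ Fintype.piFinset (fun _ : Fin n => divB dt),
        (((z : ℝ) + 1) ^ (Fintype.card (Fin n)) +
          ∑ I ∈ (univ : Finset (Finset (Fin n))).filter (fun I => I.Nonempty),
            ∑ E ∈ smallE dt I z, ((Adm (condI dt τ I E) z (X / ∏ k, E k)).ncard : ℝ))

/- A4, helper66, Helper66/TM/CountSFX.lean: theorem count_sf_x, hypotheses = the bodies of A1 and
A3 for this `dt` (`C₁`, `N` fixed) -/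
def StA4 : Prop := ∀ (f : ℤ[X]) (n : ℕ) (dt : FData f (Fin n)) (C₁ N : ℕ)
    (_h1 : ∀ X : ℕ, (DegX dt X).Finite ∧ (DegX dt X).ncard ≤ C₁ * (Nat.sqrt X + 1))
    (_h3 : ∀ X z : ℕ, (XSet f X \ DegX dt X).Finite ∧
      ((XSet f X \ DegX dt X).ncard : ℝ) ≤ N *
      ∑ _t ∈ divB dt, ∑ τ ∈ Fintype.piFinset (fun _ : Fin n => divB dt),
        (((z : ℝ) + 1) ^ (Fintype.card (Fin n)) +
          ∑ I ∈ (univ : Finset (Finset (Fin n))).filter (fun I => I.Nonempty),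
            ∑ E ∈ smallE dt I z, ((Adm (condI dt τ I E) z (X / ∏ k, E k)).ncard : ℝ))),
    (∀ X : ℕ, (XSet f X).Finite) ∧ ∃ C c : ℝ, 0 < C ∧ 0 < c ∧ ∀ X : ℕ, 2 ≤ X →
      ((XSet f X).ncard : ℝ) ≤ C * X / (Real.log X) ^ c

/- A5, helper75, Helper75/TM/CountAllX.lean: theorem count_all_x -/
def StA5 : Prop := ∀ (f : ℤ[X]) (_hfin : ∀ X : ℕ, (XSet f X).Finite)
    (_H : ∃ C c : ℝ, 0 < C ∧ 0 < c ∧ ∀ X : ℕ, 2 ≤ X →
      ((XSet f X).ncard : ℝ) ≤ C * X / (Real.log X) ^ c),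
    ∃ C c : ℝ, 0 < C ∧ 0 < c ∧ ∀ X : ℕ, 2 ≤ X →
      {P : ℤ × ℤ × ℤ | P.1 ≠ 0 ∧ |P.1| ≤ X ∧ P.2.2 ≠ 0 ∧
        P.2.2 ^ 2 = P.1 * f.eval P.2.1}.Finite ∧
      (({P : ℤ × ℤ × ℤ | P.1 ≠ 0 ∧ |P.1| ≤ X ∧ P.2.2 ≠ 0 ∧
        P.2.2 ^ 2 = P.1 * f.eval P.2.1}.ncard : ℕ) : ℝ) ≤ C * X / (Real.log X) ^ c

end Pool.Agent.Helper38.TM
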