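import Mathlib
import Pool.Agent.Helper38.TM.DegX
import Pool.Agent.Helper38.TM.Tuple
import Pool.Agent.Helper38.TM.SplitX
import Pool.Agent.Helper38.TM.LinCard
import Pool.Agent.Helper38.TW.FExists
import Pool.Agent.Helper66.TM.CountSFXG
import Pool.Agent.Helper31.TM.CountAllX
import Pool.Agent.Helper32.TM.Split3X

/-!
# TM: the first moment of the twists (assembly)
-/

set_option autoImplicit false

namespace Pool.Agent.Helper38.TM

open Finset Polynomial Pool.Agent.Helper38.TW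

variable {f : ℤ[X]} {ι : Type} [Fintype ι] [DecidableEq ι]

/-- the degenerate `x` in degree at least `4` -/
theorem four_bound_x (dt : FData f ι) (hd : 4 ≤ f.natDegree) :
    (∀ X : ℕ, (DegX dt X).Finite) ∧ ∃ C c : ℝ, 0 < C ∧ 0 < c ∧ ∀ X : ℕ, 2 ≤ X →
      ((DegX dt X).ncard : ℝ) ≤ C * X / (Real.log X) ^ c := by
  obtain ⟨C, hC⟩ := deg_count_x dt hd
  refine ⟨fun X => (hC X).1, 4 * C + 1, 1, by positivity, one_pos, fun X hX => ?_⟩
  obtain ⟨hfin, hcard⟩ := hC X
  have hXpos : (0 : ℝ) < X := by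
    have : 0 < X := by omega
    exact_mod_cast this
  have hX1 : (1 : ℝ) ≤ X := by exact_mod_cast (by omega : 1 ≤ X)
  have hlog : 0 < Real.log X := Real.log_pos (by exact_mod_cast (by omega : 1 < X))
  have h2 : ((DegX dt X).ncard : ℝ) ≤ C * (Nat.sqrt X + 1) := by
    exact_mod_cast hcard
  obtain ⟨s, hs⟩ : ∃ s : ℝ, s = Real.sqrt X := ⟨_, rfl⟩
  have hs1 : 1 ≤ s := by
    rw [hs]
    exact Real.one_le_sqrt.2 hX1
  have hs2 : s * s = X := by
    rw [hs]
    exact Real.mul_self_sqrt hXpos.le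
  have hs3 : (Nat.sqrt X : ℝ) ≤ s := by
    rw [hs]
    exact Real.nat_sqrt_le_real_sqrt
  have hlogs : Real.log X ≤ 2 * s := by
    rw [← hs2, Real.log_mul (by linarith) (by linarith)]
    have := Real.log_le_sub_one_of_pos (by linarith : 0 < s)
    linarith
  rw [Real.rpow_one, le_div_iff₀ hlog]
  have hC0 : (0 : ℝ) ≤ C := Nat.cast_nonneg C
  calc ((DegX dt X).ncard : ℝ) * Real.log X
      ≤ (C * (s + 1)) * (2 * s) := by
        refine mul_le_mul (h2.trans ?_) hlogs hlog.le (by positivity)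
        exact mul_le_mul_of_nonneg_left (by linarith) hC0
    _ ≤ (4 * C) * X := by
        rw [← hs2]
        nlinarith [mul_nonneg hC0 (mul_nonneg (by linarith : (0 : ℝ) ≤ s) (by linarith : (0 : ℝ) ≤ s - 1))]
    _ ≤ (4 * C + 1) * X := by linarith

/-- the squarefree twists of a polynomial of degree at least `4` -/
theorem sf_x (F : ℤ[X]) (m : ℕ) (dF : FData F (Fin m)) (N : ℕ) (hd : 4 ≤ F.natDegree)
    (hN : TupleBound dF N) :
    (∀ X : ℕ, (XSet F X).Finite) ∧ ∃ C c : ℝ, 0 < C ∧ 0 < c ∧ ∀ X : ℕ, 2 ≤ X →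
      ((XSet F X).ncard : ℝ) ≤ C * X / (Real.log X) ^ c :=
  Pool.Agent.Helper66.TM.count_sf_xg F m dF N (four_bound_x dF hd).1 (four_bound_x dF hd).2
    (count_split_x dF N hN)

/-- **The first moment of the twists**, three rational roots -/
theorem moment (f : ℤ[X]) (hf : Squarefree (f.map (Int.castRingHom ℚ)))
    (h3 : 3 ≤ (f.map (Int.castRingHom ℚ)).roots.toFinset.card) :
    ∃ C c : ℝ, 0 < C ∧ 0 < c ∧ ∀ X : ℕ, 2 ≤ X →
      {P : ℤ × ℤ × ℤ | P.1 ≠ 0 ∧ |P.1| ≤ X ∧ P.2.2 ≠ 0 ∧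
        P.2.2 ^ 2 = P.1 * f.eval P.2.1}.Finite ∧
      (({P : ℤ × ℤ × ℤ | P.1 ≠ 0 ∧ |P.1| ≤ X ∧ P.2.2 ≠ 0 ∧
        P.2.2 ^ 2 = P.1 * f.eval P.2.1}.ncard : ℕ) : ℝ) ≤ C * X / (Real.log X) ^ c := by
  obtain ⟨n, ⟨dt⟩⟩ := exists_fdata f hf
  have hlin := h3.trans (roots_le_lin dt)
  obtain ⟨N, hN⟩ := tuple_card dt hlin
  by_cases h4 : 4 ≤ f.natDegree
  · exact Pool.Agent.Helper31.TM.count_all_x f (sf_x f n dt N h4 hN).1 (sf_x f n dt N h4 hN).2
  have hpos : ∀ k, 0 < (dt.g k).natDegree := by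
    intro k
    have h1 := (dt.irr k).natDegree_pos
    rwa [natDegree_map_eq_of_injective (Int.castRingHom ℚ).injective_int] at h1
  have hsum := sum_deg dt
  have hle : (univ.filter (fun k => (dt.g k).natDegree = 1)).card +
      ∑ k ∈ univ.filter (fun k => ¬ (dt.g k).natDegree = 1), (dt.g k).natDegree =
      f.natDegree := by
    rw [← hsum, ← Finset.sum_filter_add_sum_filter_not univ (fun k => (dt.g k).natDegree = 1)]
    congr 1
    rw [Finset.sum_congr rfl (fun k hk => (Finset.mem_filter.1 hk).2)]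
    simp
  have hall : ∀ i, (dt.g i).natDegree = 1 := by
    intro i
    by_contra hi
    have h5 : (dt.g i).natDegree ≤
        ∑ k ∈ univ.filter (fun k => ¬ (dt.g k).natDegree = 1), (dt.g k).natDegree :=
      Finset.single_le_sum (f := fun k => (dt.g k).natDegree) (fun _ _ => Nat.zero_le _)
        (Finset.mem_filter.2 ⟨Finset.mem_univ i, hi⟩)
    have h6 := hpos i
    omega
  have hd3 : f.natDegree = 3 := by omega
  obtain ⟨hfin, hdeg⟩ := Pool.Agent.Helper32.TM.split3_x dt hd3 hall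
    fun F m dF M hF hM => sf_x F m dF M (by omega) hM
  obtain ⟨hX1, hX2⟩ := Pool.Agent.Helper66.TM.count_sf_xg f n dt N hfin hdeg
    (count_split_x dt N hN)
  exact Pool.Agent.Helper31.TM.count_all_x f hX1 hX2

end Pool.Agent.Helper38.TM
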